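import Pool.Agent.Y638.WF.ThreeSum
import Pool.Agent.TH457.Ary.Tri

set_option autoImplicit false

/-! # Triangles in lists of edges, and integral formulas -/

namespace Pool.Agent.R617.WFT

open Finset Pool.Agent.TH697.Form Pool.Agent.TH697.Row
open Pool.Agent.TH457.Ary.Tri Pool.Agent.Y638.WF
open Pool.Agent.TH457.Ary.Sat (exists_k logb_four_pow)

variable {m k c w v : ℕ}

theorem asks (hk : 3 ≤ k) (hm : 4 ^ k ≤ m) (p : Fin m) :
    Asks (D := fun _ : Fin m => Edge (2 * m)) (Fin (M m k) × Fin k) 0 Simple triangle p := by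
  classical
  have hne : NeZero m := ⟨by have : 0 < 4 ^ k := by positivity
                             omega⟩
  have key : ∀ t (z : Fin (M m k) × Fin k → Bool) (p' : Fin m),
      Function.update (fun p' : Fin m => toEdge m (edge z (rank p.val p'.val))) p
        (toEdge m (askEdge t)) p' = toEdge m (inp p.val t z p'.val) := by
    intro t z p'
    by_cases h : p' = p
    · subst h
      rw [Function.update_self]
      simp [inp]
    · rw [Function.update_of_ne h]
      have : p'.val ≠ p.val := fun h' => h (Fin.ext h')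
      simp [inp, this]
  have hval : ∀ t (z : Fin (M m k) × Fin k → Bool) (p' : Fin m),
      ((toEdge m (inp p.val t z p'.val)).1.val, (toEdge m (inp p.val t z p'.val)).2.val) =
        inp p.val t z p'.val := by
    intro t z p'
    have hb := bounds hk hm p.val p.2 t z p'.val p'.2
    exact toEdge_val _ (by omega) hb.2
  have h : ∀ (t : Fin (M m k) × Fin k) (z : Fin (M m k) × Fin k → Bool),
      triangle (Function.update (fun p' : Fin m => toEdge m (edge z (rank p.val p'.val))) p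
        (toEdge m (askEdge t))) = z t := by
    intro t z
    unfold triangle
    rw [Bool.eq_iff_iff, decide_eq_true_iff, ← tri_iff hk hm p.val p.2 t z]
    simp only [key]
    constructor
    · rintro ⟨a, b, c, ⟨p1, e1⟩, ⟨p2, e2⟩, ⟨p3, e3⟩⟩
      refine ⟨a.val, b.val, c.val, ⟨p1.val, p1.2, ?_⟩, ⟨p2.val, p2.2, ?_⟩, ⟨p3.val, p3.2, ?_⟩⟩
      · rw [← hval t z p1, e1]
      · rw [← hval t z p2, e2]
      · rw [← hval t z p3, e3]
    · rintro ⟨a, b, c, ⟨p1, h1, e1⟩, ⟨p2, h2, e2⟩, ⟨p3, h3, e3⟩⟩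
      have b1 := bounds hk hm p.val p.2 t z p1 h1
      have b2 := bounds hk hm p.val p.2 t z p2 h2
      rw [e1] at b1
      rw [e2] at b2
      simp only at b1 b2
      have v1 := hval t z ⟨p1, h1⟩
      have v2 := hval t z ⟨p2, h2⟩
      have v3 := hval t z ⟨p3, h3⟩
      simp only at v1 v2 v3
      rw [e1, Prod.mk.injEq] at v1
      rw [e2, Prod.mk.injEq] at v2
      rw [e3, Prod.mk.injEq] at v3
      refine ⟨⟨a, by omega⟩, ⟨b, by omega⟩, ⟨c, by omega⟩, ⟨⟨p1, h1⟩, ?_⟩, ⟨⟨p2, h2⟩, ?_⟩,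
        ⟨⟨p3, h3⟩, ?_⟩⟩
      · simp only
        rw [e1]
        exact Prod.ext (Fin.ext v1.1) (Fin.ext v1.2)
      · simp only
        rw [e2]
        exact Prod.ext (Fin.ext v2.1) (Fin.ext v2.2)
      · simp only
        rw [e3]
        exact Prod.ext (Fin.ext v3.1) (Fin.ext v3.2)
  refine asks_of (Set.range (fun t : Fin (M m k) × Fin k => toEdge m (askEdge t))) (fun _ => 0)
    (fun t _ => toEdge m (askEdge t)) (fun z p' => toEdge m (edge z (rank p.val p'.val)))
    ?_ ?_ ?_ ?_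
  · exact fun t z => ⟨t, rfl⟩
  · exact fun t z z' _ => rfl
  · rintro _ ⟨t, rfl⟩ z
    refine ⟨fun p' => ?_, fun p' p'' h => ?_⟩
    · rw [key]
      have hb := bounds hk hm p.val p.2 t z p'.val p'.2
      have hv := hval t z p'
      rw [Prod.ext_iff] at hv
      rw [Fin.lt_def]
      simp only at hv
      omega
    · rw [key, key] at h
      apply Fin.ext
      apply inj hk hm p.val p.2 t z _ _ p'.2 p''.2
      rw [← hval t z p', ← hval t z p'', h]
  · simp only [h, ne_eq, not_true_eq_false, filter_false, card_empty]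
    simp

theorem logb_m (hk : 4 ≤ k) (hm0 : 0 < m) (hm : m < 4 ^ (k + 1)) :
    Real.logb 2 (m : ℝ) ≤ 5 / 2 * k := by
  have h1 : (m : ℝ) ≤ (4 : ℝ) ^ (k + 1) := by exact_mod_cast hm.le
  have h4 := Real.logb_le_logb_of_le (by norm_num : (1 : ℝ) < 2)
    (by exact_mod_cast hm0) h1
  rw [logb_four_pow] at h4
  push_cast at h4
  have hk' : (4 : ℝ) ≤ k := by exact_mod_cast hk
  linarith

/-- the arithmetic -/
theorem arith {m g c w v N L G l s : ℝ} (hm : 1000 ≤ m) (hg : 4 ≤ g) (hc : 1 ≤ c) (hw : 1 ≤ w)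
    (hv : 1 ≤ v) (hN : m * g / 2 ≤ N) (hl : l ≤ 5 / 2 * g) (hL : L ≤ v * l + 2) (hG : G ≤ 3 * l)
    (hs : 0 ≤ s)
    (h : m * ((49 / 600 - 0) * N - G) ≤ w * (1 + 12 * L + 4 * G + 2 * (w - 1) * (c * l)) * s) :
    m ^ 2 ≤ 3000 * w * (v + c * w) * s := by
  have h0 : 1000 * g ≤ m * g := mul_le_mul_of_nonneg_right hm (by linarith)
  have h1 : m * g / 40 ≤ (49 / 600 - 0) * N - G := by linarith
  have h2 : m * (m * g / 40) ≤ m * ((49 / 600 - 0) * N - G) :=
    mul_le_mul_of_nonneg_left h1 (by linarith)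
  have hgv : g ≤ v * g := by nlinarith
  have hlv : v * l ≤ 5 / 2 * (v * g) := by nlinarith
  have h3 : w * (1 + 12 * L + 4 * G + 2 * (w - 1) * (c * l)) ≤ 70 * g * (w * (v + c * w)) := by
    have h4 : (w - 1) * (c * l) ≤ (w - 1) * (c * (5 / 2 * g)) :=
      mul_le_mul_of_nonneg_left (mul_le_mul_of_nonneg_left hl (by linarith)) (by linarith)
    have h7 : 0 ≤ (w - 1) * (c * g) := by
      apply mul_nonneg (by linarith)
      positivity
    have h8 : g ≤ c * g := by nlinarith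
    have h9 : 1 + 12 * L + 4 * G + 2 * (w - 1) * (c * l) ≤ 70 * g * (v + c * w) := by
      have e1 : 70 * g * (v + c * w) = 70 * (v * g) + 70 * (c * g) + 70 * ((w - 1) * (c * g)) := by
        ring
      have e2 : (w - 1) * (c * (5 / 2 * g)) = 5 / 2 * ((w - 1) * (c * g)) := by ring
      rw [e1]
      rw [e2] at h4
      linarith
    calc w * (1 + 12 * L + 4 * G + 2 * (w - 1) * (c * l)) ≤ w * (70 * g * (v + c * w)) :=
          mul_le_mul_of_nonneg_left h9 (by linarith)
      _ = _ := by ring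
  have h4 := mul_le_mul_of_nonneg_right h3 hs
  have h5 : g * m ^ 2 ≤ g * (3000 * w * (v + c * w) * s) := by
    have e1 : m * (m * g / 40) = g * m ^ 2 / 40 := by ring
    have e2 : 70 * g * (w * (v + c * w)) * s = g * (2800 * w * (v + c * w) * s) / 40 := by ring
    have h6 : 0 ≤ g * (w * (v + c * w) * s) := by positivity
    rw [e1] at h2
    rw [e2] at h4
    nlinarith
  exact le_of_mul_le_mul_left h5 (by linarith)

theorem logb_small (hm : 1 ≤ m) : Real.logb 2 (2 * (m ^ v : ℕ) + 1) ≤ v * Real.logb 2 m + 2 := by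
  have h0 : (1 : ℝ) ≤ ((m ^ v : ℕ) : ℝ) := by exact_mod_cast Nat.one_le_pow v m hm
  have hm' : (0 : ℝ) < (m : ℝ) := by exact_mod_cast hm
  have h1 : (2 * ((m ^ v : ℕ) : ℝ) + 1) ≤ (m : ℝ) ^ v * 2 ^ 2 := by
    push_cast at h0 ⊢
    linarith
  have h2 := Real.logb_le_logb_of_le (by norm_num : (1 : ℝ) < 2) (by positivity) h1
  rw [Real.logb_mul (by positivity) (by norm_num), Real.logb_pow, Real.logb_pow,
    Real.logb_self_eq_one (by norm_num)] at h2
  push_cast at h2 ⊢
  linarith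

theorem bound (hm : 1000 ≤ m) (hc : 1 ≤ c) (hw : 1 ≤ w) (hv : 1 ≤ v) {Ω : Type} [Fintype Ω]
    (μ : Ω → ℝ) (hμ : IsProb μ) (s : ℕ)
    (F : Ω → Program (Fin m) (fun _ => Edge (2 * m)) w (m ^ c) (m ^ v) Simple s)
    (hF : ApproximatesOn μ (fun ω => (F ω).eval) Simple triangle) :
    (m : ℝ) ^ 2 ≤ 3000 * w * (v + c * w) * s := by
  classical
  have hw' : (1 : ℝ) ≤ w := by exact_mod_cast hw
  have hc' : (1 : ℝ) ≤ c := by exact_mod_cast hc
  have hv' : (1 : ℝ) ≤ v := by exact_mod_cast hv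
  have hs0 : (0 : ℝ) ≤ s := Nat.cast_nonneg s
  by_cases hsm : m ^ 2 ≤ s
  · have h1 : (m : ℝ) ^ 2 ≤ s := by exact_mod_cast hsm
    have h3 : (0 : ℝ) ≤ c * w := by positivity
    have h2 : (1 : ℝ) ≤ w * (v + c * w) := one_le_mul_of_one_le_of_one_le hw' (by linarith)
    nlinarith
  obtain ⟨k, hk, hk1, hk2⟩ := exists_k (m := m) (by omega)
  have h := program_lower (D := fun _ : Fin m => Edge (2 * m)) μ hμ (m ^ v) s Simple F triangle hF
    (Nat.one_le_pow _ _ (by omega)) (Nat.one_le_pow _ _ (by omega)) hw 0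
    univ (T := Fin (M m k) × Fin k) (fun p _ => asks (by omega) hk1 p)
  rw [card_univ (α := Fin m), Fintype.card_fin, Nat.cast_pow m c, Real.logb_pow] at h
  refine arith (N := ((Fintype.card (Fin (M m k) × Fin k) : ℕ) : ℝ))
    (l := Real.logb 2 (m : ℝ)) (G := Real.logb 2 ((s : ℝ) + 2))
    (L := Real.logb 2 (2 * ((m ^ v : ℕ) : ℝ) + 1)) (by exact_mod_cast hm)
    (by exact_mod_cast hk) hc' hw' hv' (card_T (by omega) hk1) (logb_m hk (by omega) hk2)
    (logb_small (by omega)) ?_ hs0 h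
  have h1 : s + 2 ≤ m ^ 3 := by
    have h2 : s < m ^ 2 := by omega
    have h3 : 1000 * m ^ 2 ≤ m ^ 3 := by
      calc 1000 * m ^ 2 ≤ m * m ^ 2 := Nat.mul_le_mul_right _ hm
        _ = m ^ 3 := by ring
    have h6 : 1 ≤ m ^ 2 := Nat.one_le_pow _ _ (by omega)
    omega
  have h2 : (s : ℝ) + 2 ≤ (m : ℝ) ^ 3 := by exact_mod_cast h1
  have h3 := Real.logb_le_logb_of_le (by norm_num : (1 : ℝ) < 2) (by linarith) h2
  rw [Real.logb_pow] at h3
  exact_mod_cast h3

end Pool.Agent.R617.WFT
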